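import Mathlib
import Pool.Agent.W623.VR.Top

/-!
# The connectivity bound for odd Stirling complexes is best possible

The board has the squares `(i, j)` with `i ≤ j` (column `i`, row `j`), indexed from `0`.  The
Stirling complex is realised geometrically in the real coordinate space on the squares.
-/

set_option autoImplicit false

namespace Pool.Agent.Results.MP_2b5625_co.SharpOdd

/-- The squares of the triangular board of size `n`: pairs `(column, row)` with `column ≤ row`. -/
abbrev Square (n : ℕ) : Type := {p : Fin n × Fin n // p.1 ≤ p.2}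

/-- A set of squares is a placement of non-attacking rooks: two different squares of the set lie
in different columns and in different rows. -/
def IsPlacement {n : ℕ} (T : Finset (Square n)) : Prop :=
  ∀ s ∈ T, ∀ t ∈ T, s ≠ t → s.1.1 ≠ t.1.1 ∧ s.1.2 ≠ t.1.2

/-- The Stirling complex `St(n)`, as a subspace of `ℝ ^ squares`: the union, over all
non-attacking rook placements `T`, of the simplex spanned by the unit vectors of the squares
in `T`. -/
def St (n : ℕ) : Set (Square n → ℝ) :=
  ⋃ (T : Finset (Square n)) (_ : IsPlacement T),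
    convexHull ℝ ((fun s : Square n => (Pi.single s (1 : ℝ) : Square n → ℝ)) '' (T : Set (Square n)))

/-- A space is `k`-connected if it is nonempty and its homotopy groups (sets, for `i = 0`)
`π_i` vanish for all `0 ≤ i ≤ k` and all base points. -/
def IsKConnected (k : ℕ) (X : Type) [TopologicalSpace X] : Prop :=
  Nonempty X ∧ ∀ i : ℕ, i ≤ k → ∀ x : X, Subsingleton (HomotopyGroup.Pi i X x)

/-- For every odd `n ≥ 3` the Stirling complex `St(n)` is not `(n - 1) / 2`-connected. -/
theorem result : ∀ n : ℕ, 3 ≤ n → Odd n → ¬ IsKConnected ((n - 1) / 2) (St n) := by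
  intro n hn hodd hcon
  obtain ⟨m, rfl⟩ := hodd
  have hm : (2 * m + 1 - 1) / 2 = m := by omega
  rw [hm] at hcon
  let v : Fin (m + 1) → Square (2 * m + 1) := fun j =>
    ⟨(⟨j.1, by omega⟩, ⟨m + j.1, by omega⟩), by
      change j.1 ≤ m + j.1
      omega⟩
  let v' : Fin (m + 1) → Square (2 * m + 1) := fun j =>
    if h : j.1 < m then ⟨(⟨j.1, by omega⟩, ⟨j.1, by omega⟩), le_refl _⟩
    else ⟨(⟨2 * m, by omega⟩, ⟨2 * m, by omega⟩), le_refl _⟩
  let c : Square (2 * m + 1) → Option (Fin (m + 1)) := fun s =>
    if h : s.1.1.1 < m + 1 ∧ s.1.2.1 = m + s.1.1.1 then some ⟨s.1.1.1, h.1⟩ else none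
  have hcv : ∀ s j, c s = some j → s = v j := by
    intro s j h
    by_cases hs : s.1.1.1 < m + 1 ∧ s.1.2.1 = m + s.1.1.1
    · simp only [c, dif_pos hs, Option.some.injEq] at h
      subst h
      apply Subtype.ext
      apply Prod.ext
      · rfl
      · exact Fin.ext hs.2
    · simp only [c, dif_neg hs, reduceCtorEq] at h
  have hv : ∀ j, c (v j) = some j := by
    intro j
    exact dif_pos ⟨j.2, rfl⟩
  have hv' : ∀ j, c (v' j) = none := by
    intro j
    by_cases h : j.1 < m
    · have hh : v' j = ⟨(⟨j.1, by omega⟩, ⟨j.1, by omega⟩), le_refl _⟩ := dif_pos h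
      rw [hh]
      apply dif_neg
      rintro ⟨_, h2⟩
      change j.1 = m + j.1 at h2
      omega
    · have hh : v' j = ⟨(⟨2 * m, by omega⟩, ⟨2 * m, by omega⟩), le_refl _⟩ := dif_neg h
      rw [hh]
      apply dif_neg
      rintro ⟨h1, _⟩
      change 2 * m < m + 1 at h1
      omega
  -- columns and rows of the chosen squares
  have hK : ∀ e : Fin (m + 1) → Bool,
      IsPlacement (Finset.univ.image fun j => if e j then v j else v' j) := by
    intro e s hs t ht hst
    simp only [Finset.mem_image, Finset.mem_univ, true_and] at hs ht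
    obtain ⟨i, rfl⟩ := hs
    obtain ⟨j, rfl⟩ := ht
    have hij : i ≠ j := fun h => hst (by rw [h])
    have hij' : i.1 ≠ j.1 := fun h => hij (Fin.ext h)
    have hi := i.2
    have hj := j.2
    simp only [v, v', Ne, Fin.ext_iff]
    split_ifs <;> simp only [] <;> omega
  have hmax : ∀ T, IsPlacement T → (∀ j, ∃ u ∈ T, c u = some j) → ∀ u ∈ T, c u ≠ none := by
    intro T hT hall u hu hnone
    have hvT : ∀ j, v j ∈ T := by
      intro j
      obtain ⟨w, hw, hcw⟩ := hall j
      rw [← hcv w j hcw]
      exact hw
    have hne : ∀ j, u ≠ v j := by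
      intro j h
      rw [h, hv j] at hnone
      exact Option.some_ne_none _ hnone
    have hle : u.1.1.1 ≤ u.1.2.1 := u.2
    have h2 := u.1.2.2
    by_cases hcol : u.1.1.1 < m + 1
    · have := (hT u hu (v ⟨u.1.1.1, hcol⟩) (hvT _) (hne _)).1
      exact this (Fin.ext rfl)
    · have hrow : u.1.2.1 - m < m + 1 := by omega
      have := (hT u hu (v ⟨u.1.2.1 - m, hrow⟩) (hvT _) (hne _)).2
      apply this
      apply Fin.ext
      simp only [v]
      omega
  obtain ⟨x, hx⟩ := Pool.Agent.W623.VR.not_subsingleton m
    (fun T : Finset (Square (2 * m + 1)) => IsPlacement T) c v v' hv hv' hK hmax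
  exact hx (hcon.2 m le_rfl x)

end Pool.Agent.Results.MP_2b5625_co.SharpOdd
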